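import Mathlib

/-!
# The Turán function and the Turán density of the complete `k`-graph `K_m^k`
-/

open Finset

namespace Pool.Agent.H120R2.Clique

/-- The family `G` of subsets of `Fin n` contains a copy of `K_m^k`: there is a set of `m` vertices
all of whose `k`-element subsets belong to `G`. -/
def HasClique {n : ℕ} (G : Finset (Finset (Fin n))) (k m : ℕ) : Prop :=
  ∃ A : Finset (Fin n), A.card = m ∧ A.powersetCard k ⊆ G

open Classical in
/-- The Turán function `ex(n, K_m^k)`: the largest number of edges of a `k`-graph on `Fin n`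
without a copy of `K_m^k`. -/
noncomputable def ex (n k m : ℕ) : ℕ :=
  ((((univ : Finset (Fin n)).powersetCard k).powerset).filter
    (fun G => ¬ HasClique G k m)).sup Finset.card

/-- The Turán density `π(K_m^k)`: the limit of `ex(n, K_m^k) / C(n,k)`. -/
noncomputable def turanDensity (k m : ℕ) : ℝ :=
  Filter.limUnder Filter.atTop (fun n : ℕ => (ex n k m : ℝ) / (n.choose k : ℝ))

theorem le_ex {n k m : ℕ} {G : Finset (Finset (Fin n))} (h1 : ∀ A ∈ G, A.card = k)
    (h2 : ¬ HasClique G k m) : G.card ≤ ex n k m := by
  classical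
  unfold ex
  refine Finset.le_sup (f := Finset.card) ?_
  rw [mem_filter, mem_powerset]
  exact ⟨fun A hA => mem_powersetCard.mpr ⟨subset_univ _, h1 A hA⟩, h2⟩

/-- averaging over the deletion of one vertex -/
theorem ex_succ (n k m : ℕ) : (n + 1 - k) * ex (n + 1) k m ≤ (n + 1) * ex n k m := by
  classical
  by_cases hne : ∃ G : Finset (Finset (Fin (n + 1))), (∀ A ∈ G, A.card = k) ∧
      ¬ HasClique G k m ∧ G.card = ex (n + 1) k m
  · obtain ⟨H, h1, h2, h3⟩ := hne
    rw [← h3]
    have key : ∀ v : Fin (n + 1), (H.filter (fun A => v ∉ A)).card ≤ ex n k m := by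
      intro v
      set H' : Finset (Finset (Fin n)) := univ.filter (fun B => B.map v.succAboveEmb ∈ H) with hH'
      have e1 : (H.filter (fun A => v ∉ A)).card = H'.card := by
        symm
        refine Finset.card_bij (fun B _ => B.map v.succAboveEmb) ?_ ?_ ?_
        · intro B hB
          rw [hH', mem_filter] at hB
          rw [mem_filter]
          refine ⟨hB.2, ?_⟩
          rw [mem_map]
          rintro ⟨x, -, hx⟩
          exact Fin.succAbove_ne v x hx
        · intro B _ B' _ hBB
          exact Finset.map_injective _ hBB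
        · intro A hA
          rw [mem_filter] at hA
          have hAm : (univ.filter (fun x => v.succAboveEmb x ∈ A)).map v.succAboveEmb = A := by
            ext a
            simp only [mem_map, mem_filter, mem_univ, true_and]
            constructor
            · rintro ⟨x, hx, rfl⟩; exact hx
            · intro ha
              have hav : a ≠ v := by rintro rfl; exact hA.2 ha
              obtain ⟨x, hx⟩ := Fin.exists_succAbove_eq hav
              exact ⟨x, by rw [Fin.succAboveEmb_apply, hx]; exact ha,
                by rw [Fin.succAboveEmb_apply, hx]⟩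
          refine ⟨univ.filter (fun x => v.succAboveEmb x ∈ A), ?_, hAm⟩
          rw [hH', mem_filter]
          exact ⟨mem_univ _, by rw [hAm]; exact hA.1⟩
      rw [e1]
      apply le_ex
      · intro B hB
        rw [hH', mem_filter] at hB
        have := h1 _ hB.2
        rwa [Finset.card_map] at this
      · rintro ⟨A, hA, hAH⟩
        apply h2
        refine ⟨A.map v.succAboveEmb, by rw [Finset.card_map, hA], fun B hB => ?_⟩
        rw [mem_powersetCard] at hB
        obtain ⟨B', hB', rfl⟩ := Finset.subset_map_iff.mp hB.1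
        have : B' ∈ H' := hAH (by
          rw [mem_powersetCard]
          exact ⟨hB', by rw [← hB.2, Finset.card_map]⟩)
        rw [hH', mem_filter] at this
        exact this.2
    have hs : ∑ v : Fin (n + 1), (H.filter (fun A => v ∉ A)).card = (n + 1 - k) * H.card := by
      simp_rw [Finset.card_filter]
      rw [Finset.sum_comm]
      have : ∀ A ∈ H, ∑ v : Fin (n + 1), (if v ∉ A then 1 else 0) = n + 1 - k := by
        intro A hA
        rw [← Finset.card_filter]
        have : (univ.filter (fun v => v ∉ A)) = Aᶜ := by ext v; simp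
        rw [this, Finset.card_compl, h1 A hA, Fintype.card_fin]
      rw [Finset.sum_congr rfl this, Finset.sum_const, smul_eq_mul, mul_comm]
    rw [← hs]
    calc ∑ v : Fin (n + 1), (H.filter (fun A => v ∉ A)).card ≤ ∑ v : Fin (n + 1), ex n k m :=
          Finset.sum_le_sum fun v _ => key v
      _ = (n + 1) * ex n k m := by simp
  · have : ex (n + 1) k m = 0 := by
      by_contra h0
      apply hne
      unfold ex at h0 ⊢
      have hnon : ((((univ : Finset (Fin (n + 1))).powersetCard k).powerset).filter
          (fun G => ¬ HasClique G k m)).Nonempty := by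
        by_contra hcon
        rw [Finset.not_nonempty_iff_eq_empty] at hcon
        rw [hcon] at h0
        simp at h0
      obtain ⟨H, hH, he⟩ := Finset.exists_mem_eq_sup _ hnon Finset.card
      rw [mem_filter, mem_powerset] at hH
      exact ⟨H, fun A hA => (mem_powersetCard.mp (hH.1 hA)).2, hH.2, he.symm⟩
    rw [this]; simp

theorem ratio_succ (n k m : ℕ) (hk : k ≤ n) :
    (ex (n + 1) k m : ℝ) / ((n + 1).choose k : ℝ) ≤ (ex n k m : ℝ) / (n.choose k : ℝ) := by
  have h1 := ex_succ n k m
  have h2 : (n + 1 - k) * (n + 1).choose k = (n + 1) * n.choose k := by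
    have h3 := Nat.choose_mul_succ_eq n k
    rw [mul_comm, ← h3, mul_comm]
  have p1 : 0 < n.choose k := Nat.choose_pos hk
  have p2 : 0 < (n + 1).choose k := Nat.choose_pos (by omega)
  have p3 : 0 < n + 1 - k := by omega
  rw [div_le_div_iff₀ (by exact_mod_cast p2) (by exact_mod_cast p1)]
  have h4 : ex (n + 1) k m * n.choose k ≤ ex n k m * (n + 1).choose k := by
    have : (n + 1 - k) * (ex (n + 1) k m * n.choose k)
        ≤ (n + 1 - k) * (ex n k m * (n + 1).choose k) := by
      calc (n + 1 - k) * (ex (n + 1) k m * n.choose k)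
          = ((n + 1 - k) * ex (n + 1) k m) * n.choose k := by ring
        _ ≤ ((n + 1) * ex n k m) * n.choose k := Nat.mul_le_mul_right _ h1
        _ = ex n k m * ((n + 1) * n.choose k) := by ring
        _ = ex n k m * ((n + 1 - k) * (n + 1).choose k) := by rw [h2]
        _ = (n + 1 - k) * (ex n k m * (n + 1).choose k) := by ring
    exact Nat.le_of_mul_le_mul_left this p3
  exact_mod_cast h4

theorem ratio_antitone (k m : ℕ) :
    Antitone (fun n : ℕ => (ex (n + k) k m : ℝ) / ((n + k).choose k : ℝ)) := by
  refine antitone_nat_of_succ_le fun n => ?_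
  have := ratio_succ (n + k) k m (by omega)
  have e : n + 1 + k = n + k + 1 := by ring
  rw [e]; exact this

/-- the limit defining the Turán density exists -/
theorem ratio_tendsto (k m : ℕ) :
    Filter.Tendsto (fun n : ℕ => (ex n k m : ℝ) / (n.choose k : ℝ)) Filter.atTop
      (nhds (turanDensity k m)) := by
  have hb : BddBelow (Set.range (fun n : ℕ => (ex (n + k) k m : ℝ) / ((n + k).choose k : ℝ))) := by
    refine ⟨0, ?_⟩
    rintro x ⟨n, rfl⟩
    positivity
  have h1 := tendsto_atTop_ciInf (ratio_antitone k m) hb
  have h2 : Filter.Tendsto (fun n : ℕ => (ex n k m : ℝ) / (n.choose k : ℝ)) Filter.atTop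
      (nhds (⨅ n : ℕ, (ex (n + k) k m : ℝ) / ((n + k).choose k : ℝ))) :=
    (Filter.tendsto_add_atTop_iff_nat k).mp h1
  unfold turanDensity
  rw [h2.limUnder_eq]
  exact h2

theorem le_density {k m : ℕ} {x : ℝ} (h : ∀ n : ℕ, x * (n.choose k : ℝ) ≤ (ex n k m : ℝ)) :
    x ≤ turanDensity k m := by
  refine ge_of_tendsto (ratio_tendsto k m) ?_
  rw [Filter.eventually_atTop]
  refine ⟨k, fun n hn => ?_⟩
  have : (0 : ℝ) < (n.choose k : ℝ) := by exact_mod_cast Nat.choose_pos hn
  rw [le_div_iff₀ this]
  exact h n

/-- a family of `k`-sets with a member in every `m`-set: its complement is `K_m^k`-free -/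
theorem ex_ge_of_cover {n k m : ℕ} (T : Finset (Finset (Fin n)))
    (hT : ∀ A : Finset (Fin n), A.card = m → ∃ B ∈ T, B.card = k ∧ B ⊆ A) :
    n.choose k ≤ ex n k m + T.card := by
  classical
  have h1 : (((univ : Finset (Fin n)).powersetCard k) \ T).card ≤ ex n k m := by
    apply le_ex
    · intro A hA
      exact (mem_powersetCard.mp (mem_sdiff.mp hA).1).2
    · rintro ⟨A, hA, hAH⟩
      obtain ⟨B, hB, hBk, hBA⟩ := hT A hA
      exact (mem_sdiff.mp (hAH (mem_powersetCard.mpr ⟨hBA, hBk⟩))).2 hB
  have h2 : ((univ : Finset (Fin n)).powersetCard k).card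
      ≤ (((univ : Finset (Fin n)).powersetCard k) \ T).card + T.card := by
    exact Finset.card_le_card_sdiff_add_card (s := (univ : Finset (Fin n)).powersetCard k) (t := T)
  rw [card_powersetCard, card_univ, Fintype.card_fin] at h2
  omega

end Pool.Agent.H120R2.Clique
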