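import Pool.Agent.H120R2.TuranF2

/-!
# Counting labellings and parity functions
-/

open Finset

namespace Pool.Agent.H120R2.TuranF2

open Pool.Agent.Results.MP_7badbe_co.FixedI

/-- fibres of a surjective additive homomorphism -/
theorem fiber_card {A G : Type*} [AddCommGroup A] [Fintype A] [AddCommGroup G]
    [Fintype G] [DecidableEq G] (φ : A →+ G) (hφ : Function.Surjective φ) (g : G) :
    (univ.filter (fun a => φ a = g)).card * Fintype.card G = Fintype.card A := by
  have key : ∀ g' : G, (univ.filter (fun a => φ a = g')).card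
      = (univ.filter (fun a => φ a = g)).card := by
    intro g'
    obtain ⟨a, ha⟩ := hφ (g - g')
    refine Finset.card_bij (fun x _ => x + a) ?_ ?_ ?_
    · intro x hx
      rw [mem_filter] at hx ⊢
      refine ⟨mem_univ _, ?_⟩
      rw [map_add, hx.2, ha]; abel
    · intro x _ y _ h
      exact add_right_cancel h
    · intro y hy
      rw [mem_filter] at hy
      refine ⟨y - a, ?_, by abel⟩
      rw [mem_filter]
      refine ⟨mem_univ _, ?_⟩
      rw [map_sub, hy.2, ha]; abel
  have h := Finset.card_eq_sum_card_fiberwise (f := fun a => φ a) (s := (univ : Finset A))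
    (t := (univ : Finset G)) (fun x _ => mem_univ _)
  simp_rw [key] at h
  rw [Finset.sum_const, card_univ, card_univ, smul_eq_mul] at h
  rw [h, mul_comm]

/-- extend a function on the subsets of `W` by zero -/
def exM {W : Finset ℕ} (M : W.powerset → ZMod 2) (T : Finset ℕ) : ZMod 2 :=
  if h : T ∈ W.powerset then M ⟨T, h⟩ else 0

theorem exM_add {W : Finset ℕ} (M M' : W.powerset → ZMod 2) (T : Finset ℕ) :
    exM (M + M') T = exM M T + exM M' T := by
  unfold exM; split_ifs <;> simp

theorem exM_zero {W : Finset ℕ} (T : Finset ℕ) : exM (0 : W.powerset → ZMod 2) T = 0 := by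
  unfold exM; split_ifs <;> simp

/-- the sum of `M` over a family -/
def sumHom (W : Finset ℕ) (A : Finset (Finset ℕ)) : (W.powerset → ZMod 2) →+ ZMod 2 where
  toFun M := ∑ T ∈ A, exM M T
  map_zero' := by simp [exM_zero]
  map_add' M M' := by simp [exM_add, Finset.sum_add_distrib]

theorem exM_single {W : Finset ℕ} {T0 : Finset ℕ} (h0 : T0 ∈ W.powerset) (T : Finset ℕ) :
    exM (Pi.single ⟨T0, h0⟩ 1 : W.powerset → ZMod 2) T = if T = T0 then 1 else 0 := by
  unfold exM
  by_cases h : T = T0
  · subst h
    rw [dif_pos h0, if_pos rfl, Pi.single_eq_same]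
  · rw [if_neg h]
    split_ifs with h1
    · rw [Pi.single_eq_of_ne]
      intro h2
      exact h (congrArg Subtype.val h2)
    · rfl

theorem sumHom_single {W : Finset ℕ} {A : Finset (Finset ℕ)} {T0 : Finset ℕ}
    (h0 : T0 ∈ W.powerset) :
    sumHom W A (Pi.single ⟨T0, h0⟩ 1) = if T0 ∈ A then 1 else 0 := by
  show ∑ T ∈ A, exM (Pi.single ⟨T0, h0⟩ 1 : W.powerset → ZMod 2) T = _
  simp_rw [exM_single h0]
  rw [Finset.sum_ite_eq' A T0 (fun _ => (1 : ZMod 2))]

theorem half_count {W : Finset ℕ} {A : Finset (Finset ℕ)} (hA : A ⊆ W.powerset)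
    (hne : A.Nonempty) (b : ZMod 2) :
    (univ.filter (fun M : W.powerset → ZMod 2 => ∑ T ∈ A, exM M T = b)).card * 2
      = Fintype.card (W.powerset → ZMod 2) := by
  have := fiber_card (sumHom W A) (by
    intro g
    obtain ⟨T0, hT0⟩ := hne
    have hg : g = 0 ∨ g = 1 := by revert g; decide
    rcases hg with rfl | rfl
    · exact ⟨0, map_zero _⟩
    · exact ⟨Pi.single ⟨T0, hA hT0⟩ 1, by rw [sumHom_single, if_pos hT0]⟩) b
  rw [ZMod.card] at this
  exact this

theorem quarter_count {W : Finset ℕ} {A B : Finset (Finset ℕ)} (hA : A ⊆ W.powerset)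
    (hB : B ⊆ W.powerset) {T1 T2 : Finset ℕ} (h1 : T1 ∈ A) (h1' : T1 ∉ B) (h2 : T2 ∈ B)
    (h2' : T2 ∉ A) :
    (univ.filter (fun M : W.powerset → ZMod 2 =>
      ∑ T ∈ A, exM M T = 1 ∧ ∑ T ∈ B, exM M T = 1)).card * 4
      = Fintype.card (W.powerset → ZMod 2) := by
  have := fiber_card ((sumHom W A).prod (sumHom W B)) (by
    rintro ⟨g, g'⟩
    have hg : ∀ g : ZMod 2, g = 0 ∨ g = 1 := by decide
    have e1 : ((sumHom W A).prod (sumHom W B)) (Pi.single ⟨T1, hA h1⟩ 1) = (1, 0) := by
      rw [AddMonoidHom.prod_apply, sumHom_single, sumHom_single, if_pos h1, if_neg h1']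
    have e2 : ((sumHom W A).prod (sumHom W B)) (Pi.single ⟨T2, hB h2⟩ 1) = (0, 1) := by
      rw [AddMonoidHom.prod_apply, sumHom_single, sumHom_single, if_pos h2, if_neg h2']
    rcases hg g with rfl | rfl <;> rcases hg g' with rfl | rfl
    · exact ⟨0, map_zero _⟩
    · exact ⟨_, e2⟩
    · exact ⟨_, e1⟩
    · exact ⟨Pi.single ⟨T1, hA h1⟩ 1 + Pi.single ⟨T2, hB h2⟩ 1, by
        rw [map_add, e1, e2]; simp⟩) (1, 1)
  rw [Fintype.card_prod, ZMod.card] at this
  rw [← this]
  congr 2
  ext M
  simp only [mem_filter, mem_univ, true_and, AddMonoidHom.prod_apply, Prod.mk.injEq]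
  rfl

/-- weights: the probability of failure when the target class has `n` points -/
noncomputable def wt : ℕ → ℝ
  | 0 => 1
  | 1 => 1 / 2
  | 2 => 1 / 4
  | _ => 0

open Classical in
theorem fail_count {β : Type*} [DecidableEq β] {W D : Finset ℕ} (hD : D ⊆ W) (l : ℕ → β)
    (c : β) :
    ((univ.filter (fun M : W.powerset → ZMod 2 =>
      ∀ v ∈ D, l v = c → FF l (exM M) (D.erase v) ≠ 0)).card : ℝ)
      ≤ wt (D.filter (fun v => l v = c)).card * (Fintype.card (W.powerset → ZMod 2) : ℝ) := by
  have hz : ∀ g : ZMod 2, g ≠ 0 → g = 1 := by decide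
  have hsub : ∀ v, Tr l (D.erase v) ⊆ W.powerset := by
    intro v T hT
    rw [mem_powerset]
    exact (Tr_subset hT).trans ((Finset.erase_subset _ _).trans hD)
  generalize hn : (D.filter (fun v => l v = c)).card = n
  match n, hn with
  | 0, hn =>
    rw [wt, one_mul]
    exact_mod_cast (Finset.card_le_univ _)
  | 1, hn =>
    rw [Finset.card_eq_one] at hn
    obtain ⟨x, hx⟩ := hn
    have hxD : x ∈ D.filter (fun v => l v = c) := by rw [hx]; exact mem_singleton_self _
    rw [mem_filter] at hxD
    have h1 := half_count (hsub x) (Tr_nonempty l (D.erase x)) 1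
    have h2 : (univ.filter (fun M : W.powerset → ZMod 2 =>
      ∀ v ∈ D, l v = c → FF l (exM M) (D.erase v) ≠ 0)).card
      ≤ (univ.filter (fun M : W.powerset → ZMod 2 =>
        ∑ T ∈ Tr l (D.erase x), exM M T = 1)).card := by
      refine Finset.card_le_card fun M hM => ?_
      rw [mem_filter] at hM ⊢
      exact ⟨mem_univ _, hz _ (hM.2 x hxD.1 hxD.2)⟩
    have h1' : ((univ.filter (fun M : W.powerset → ZMod 2 =>
        ∑ T ∈ Tr l (D.erase x), exM M T = 1)).card : ℝ) * 2
        = (Fintype.card (W.powerset → ZMod 2) : ℝ) := by exact_mod_cast h1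
    have h2' : ((univ.filter (fun M : W.powerset → ZMod 2 =>
      ∀ v ∈ D, l v = c → FF l (exM M) (D.erase v) ≠ 0)).card : ℝ)
      ≤ ((univ.filter (fun M : W.powerset → ZMod 2 =>
        ∑ T ∈ Tr l (D.erase x), exM M T = 1)).card : ℝ) := by exact_mod_cast h2
    rw [wt]
    linarith
  | 2, hn =>
    rw [Finset.card_eq_two] at hn
    obtain ⟨x, y, hxy, hx⟩ := hn
    have hxD : x ∈ D.filter (fun v => l v = c) := by rw [hx]; simp
    have hyD : y ∈ D.filter (fun v => l v = c) := by rw [hx]; simp
    rw [mem_filter] at hxD hyD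
    have hE : ∀ u ∈ D, l u = c → u = x ∨ u = y := by
      intro u hu hlu
      have : u ∈ D.filter (fun v => l v = c) := mem_filter.mpr ⟨hu, hlu⟩
      rw [hx] at this
      simpa using this
    obtain ⟨T1, hT1⟩ := Tr_nonempty l (D.erase x)
    obtain ⟨T2, hT2⟩ := Tr_nonempty l (D.erase y)
    have h1 := quarter_count (hsub x) (hsub y) hT1
      (Tr_pair hyD.1 hyD.2 hxy hE hT1) hT2
      (Tr_pair hxD.1 hxD.2 hxy.symm (fun u h1 h2 => (hE u h1 h2).symm) hT2)
    have h2 : (univ.filter (fun M : W.powerset → ZMod 2 =>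
      ∀ v ∈ D, l v = c → FF l (exM M) (D.erase v) ≠ 0)).card
      ≤ (univ.filter (fun M : W.powerset → ZMod 2 =>
        ∑ T ∈ Tr l (D.erase x), exM M T = 1 ∧ ∑ T ∈ Tr l (D.erase y), exM M T = 1)).card := by
      refine Finset.card_le_card fun M hM => ?_
      rw [mem_filter] at hM ⊢
      exact ⟨mem_univ _, hz _ (hM.2 x hxD.1 hxD.2), hz _ (hM.2 y hyD.1 hyD.2)⟩
    have h1' : ((univ.filter (fun M : W.powerset → ZMod 2 =>
        ∑ T ∈ Tr l (D.erase x), exM M T = 1 ∧ ∑ T ∈ Tr l (D.erase y), exM M T = 1)).card : ℝ) * 4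
        = (Fintype.card (W.powerset → ZMod 2) : ℝ) := by exact_mod_cast h1
    have h2' : ((univ.filter (fun M : W.powerset → ZMod 2 =>
      ∀ v ∈ D, l v = c → FF l (exM M) (D.erase v) ≠ 0)).card : ℝ)
      ≤ ((univ.filter (fun M : W.powerset → ZMod 2 =>
        ∑ T ∈ Tr l (D.erase x), exM M T = 1 ∧ ∑ T ∈ Tr l (D.erase y), exM M T = 1)).card : ℝ) := by
      exact_mod_cast h2
    rw [wt]
    linarith
  | k + 3, hn =>
    have h0 : (univ.filter (fun M : W.powerset → ZMod 2 =>
      ∀ v ∈ D, l v = c → FF l (exM M) (D.erase v) ≠ 0)) = ∅ := by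
      rw [Finset.filter_eq_empty_iff]
      intro M _ hM
      obtain ⟨v, hv, hlv, h⟩ := exists_zero (l := l) (M := exM M) (D := D) (c := c) (by omega)
      exact hM v hv hlv h
    rw [h0]
    have : wt (k + 3) = 0 := rfl
    rw [this]
    simp

theorem count_exact {ι : Type*} [Fintype ι] [DecidableEq ι] (m : ℕ) [NeZero m] (c : ZMod m)
    (i : ℕ) :
    (univ.filter (fun g : ι → ZMod m => (univ.filter (fun x => g x = c)).card = i)).card
      = (Fintype.card ι).choose i * (m - 1) ^ (Fintype.card ι - i) := by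
  classical
  rw [Finset.card_eq_sum_card_fiberwise (f := fun g : ι → ZMod m => univ.filter (fun x => g x = c))
    (t := powersetCard i univ)]
  · have : ∀ S ∈ powersetCard i (univ : Finset ι),
        ((univ.filter (fun g : ι → ZMod m => (univ.filter (fun x => g x = c)).card = i)).filter
          (fun g => univ.filter (fun x => g x = c) = S)).card
        = (m - 1) ^ (Fintype.card ι - i) := by
      intro S hS
      rw [mem_powersetCard] at hS
      have e1 : ((univ.filter (fun g : ι → ZMod m => (univ.filter (fun x => g x = c)).card = i)).filter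
          (fun g => univ.filter (fun x => g x = c) = S))
          = Fintype.piFinset (fun x : ι => if x ∈ S then ({c} : Finset (ZMod m))
              else (univ : Finset (ZMod m)).erase c) := by
        ext g
        simp only [mem_filter, mem_univ, true_and, Fintype.mem_piFinset]
        constructor
        · rintro ⟨_, h⟩ x
          split_ifs with hx
          · rw [← h, mem_filter] at hx
            rw [mem_singleton]; exact hx.2
          · rw [mem_erase]
            refine ⟨fun hc => hx ?_, mem_univ _⟩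
            rw [← h, mem_filter]; exact ⟨mem_univ _, hc⟩
        · intro h
          have h2 : univ.filter (fun x => g x = c) = S := by
            ext x
            rw [mem_filter]
            have := h x
            constructor
            · rintro ⟨_, hc⟩
              by_contra hx
              rw [if_neg hx, mem_erase] at this
              exact this.1 hc
            · intro hx
              rw [if_pos hx, mem_singleton] at this
              exact ⟨mem_univ _, this⟩
          refine ⟨?_, h2⟩
          rw [h2]; exact hS.2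
      rw [e1, Fintype.card_piFinset]
      have e2 : ∀ x : ι, (if x ∈ S then ({c} : Finset (ZMod m))
          else (univ : Finset (ZMod m)).erase c).card = if x ∈ S then 1 else (m - 1) := by
        intro x
        split_ifs
        · simp
        · rw [Finset.card_erase_of_mem (mem_univ _), card_univ, ZMod.card]
      simp_rw [e2]
      rw [Finset.prod_ite]
      simp only [prod_const_one, one_mul, prod_const]
      congr 1
      have : univ.filter (fun x => x ∉ S) = univ \ S := by
        ext x; simp
      rw [this, Finset.card_sdiff_of_subset (Finset.subset_univ _), card_univ, hS.2]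
    rw [Finset.sum_congr rfl this, Finset.sum_const, card_powersetCard, card_univ, smul_eq_mul]
  · intro g hg
    rw [mem_coe, mem_filter] at hg
    rw [mem_coe, mem_powersetCard]
    exact ⟨Finset.subset_univ _, hg.2⟩

theorem label_count {W : Finset ℕ} (m : ℕ) [NeZero m] (D : Finset ℕ) (hD : D ⊆ W)
    (c : ZMod m) (i : ℕ) :
    (univ.filter (fun l : W → ZMod m => (D.filter (fun v => ex0 l v = c)).card = i)).card
      * m ^ D.card = (D.card.choose i * (m - 1) ^ (D.card - i)) * m ^ W.card := by
  classical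
  have hr := restrict_count (α := W) (β := ZMod m) (ι := D) (fun x => ⟨x.1, hD x.2⟩)
    (fun x y hxy => Subtype.ext (by simpa using hxy))
    (fun g => (univ.filter (fun x => g x = c)).card = i)
  have e1 : (univ.filter (fun l : W → ZMod m => (D.filter (fun v => ex0 l v = c)).card = i))
      = univ.filter (fun f : W → ZMod m =>
        (univ.filter (fun x : D => (f ∘ fun x : D => (⟨x.1, hD x.2⟩ : W)) x = c)).card = i) := by
    ext l
    simp only [mem_filter, mem_univ, true_and]
    have : (D.filter (fun v => ex0 l v = c)).card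
        = (univ.filter (fun x : D => (l ∘ fun x : D => (⟨x.1, hD x.2⟩ : W)) x = c)).card := by
      symm
      refine Finset.card_bij (fun x _ => x.1) ?_ ?_ ?_
      · intro x hx
        rw [mem_filter] at hx ⊢
        refine ⟨x.2, ?_⟩
        rw [ex0, dif_pos (hD x.2)]
        exact hx.2
      · intro x _ y _ h
        exact Subtype.ext h
      · intro v hv
        rw [mem_filter] at hv
        refine ⟨⟨v, hv.1⟩, ?_, rfl⟩
        rw [mem_filter]
        refine ⟨mem_univ _, ?_⟩
        have := hv.2
        rw [ex0, dif_pos (hD hv.1)] at this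
        exact this
    rw [this]
  rw [e1]
  rw [count_exact] at hr
  simpa [ZMod.card] using hr

/-- the average weight -/
noncomputable def Phi (m N : ℕ) : ℝ :=
  (((m : ℝ) - 1) ^ N + (N.choose 1 : ℝ) * ((m : ℝ) - 1) ^ (N - 1) / 2
    + (N.choose 2 : ℝ) * ((m : ℝ) - 1) ^ (N - 2) / 4) / (m : ℝ) ^ N

theorem Phi_nonneg {m N : ℕ} (hm : 1 ≤ m) : 0 ≤ Phi m N := by
  unfold Phi
  have : (0 : ℝ) ≤ (m : ℝ) - 1 := by
    rw [sub_nonneg]; exact_mod_cast hm
  positivity

theorem weight_sum {W : Finset ℕ} (m : ℕ) (hm : 1 ≤ m) [NeZero m] (D : Finset ℕ) (hD : D ⊆ W)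
    (c : ZMod m) :
    ∑ l : W → ZMod m, wt (D.filter (fun v => ex0 l v = c)).card
      = Phi m D.card * (m : ℝ) ^ W.card := by
  classical
  have mpos : (0 : ℝ) < m := by exact_mod_cast hm
  have e0 : ∀ n : ℕ, wt n = (if n = 0 then (1 : ℝ) else 0) + (if n = 1 then (1 : ℝ) else 0) / 2
      + (if n = 2 then (1 : ℝ) else 0) / 4 := by
    intro n
    match n with
    | 0 => simp [wt]
    | 1 => simp [wt]
    | 2 => simp [wt]
    | k + 3 => simp [wt]
  have e1 : ∀ i : ℕ, ∑ l : W → ZMod m,
      (if (D.filter (fun v => ex0 l v = c)).card = i then (1 : ℝ) else 0)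
      = (D.card.choose i : ℝ) * ((m : ℝ) - 1) ^ (D.card - i) * (m : ℝ) ^ W.card / (m : ℝ) ^ D.card := by
    intro i
    rw [Finset.sum_boole, eq_div_iff (by positivity)]
    have := label_count m D hD c i
    have h2 : ((m - 1 : ℕ) : ℝ) = (m : ℝ) - 1 := by
      rw [Nat.cast_sub hm]; simp
    rw [← h2]
    exact_mod_cast this
  simp_rw [e0]
  rw [Finset.sum_add_distrib, Finset.sum_add_distrib, ← Finset.sum_div, ← Finset.sum_div,
    e1 0, e1 1, e1 2, Phi]
  rw [Nat.choose_zero_right]
  field_simp
  simp
  ring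

end Pool.Agent.H120R2.TuranF2
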