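import Pool.Agent.H120R2.TuranStep

/-!
# The numerical part: systems of relative size `4.019/(k+1)` for every `k`
-/

open Finset

namespace Pool.Agent.H120R2.TuranF2

open Pool.Agent.Results.MP_7badbe_co.FixedI

theorem one_sub_mul_exp_le {x : ℝ} (h0 : 0 ≤ x) (h1 : x ≤ 1 / 2) :
    (1 - x) * Real.exp (x + x ^ 2 / 2) ≤ 1 := by
  have hy0 : 0 ≤ x + x ^ 2 / 2 := by positivity
  have hy1 : x + x ^ 2 / 2 ≤ 1 := by nlinarith
  have h := Real.exp_bound' hy0 hy1 (n := 3) (by norm_num)
  simp only [Finset.sum_range_succ, Finset.sum_range_zero, Nat.factorial] at h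
  norm_num at h
  have h2 : (1 - x) * Real.exp (x + x ^ 2 / 2) ≤
      (1 - x) * (1 + (x + x ^ 2 / 2) + (x + x ^ 2 / 2) ^ 2 / 2 + (x + x ^ 2 / 2) ^ 3 * 4 / 18) :=
    mul_le_mul_of_nonneg_left h (by linarith)
  refine h2.trans ?_
  have : (1 - x) * (1 + (x + x ^ 2 / 2) + (x + x ^ 2 / 2) ^ 2 / 2 + (x + x ^ 2 / 2) ^ 3 * 4 / 18)
      = 1 - (5 / 18 * x ^ 3 + 19 / 72 * x ^ 4 + 7 / 24 * x ^ 5 + 5 / 36 * x ^ 6 + 1 / 36 * x ^ 7) := by
    ring
  rw [this]
  have : 0 ≤ 5 / 18 * x ^ 3 + 19 / 72 * x ^ 4 + 7 / 24 * x ^ 5 + 5 / 36 * x ^ 6 + 1 / 36 * x ^ 7 := by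
    positivity
  linarith

theorem exp_neg_five : Real.exp (-5) ≤ 100 / 14841 := by
  have h1 := Real.exp_one_gt_d9
  have h2 : Real.exp 5 = Real.exp 1 ^ 5 := by rw [← Real.exp_nat_mul]; norm_num
  have h3 : (2.7182818283 : ℝ) ^ 5 ≤ Real.exp 1 ^ 5 := pow_le_pow_left₀ (by norm_num) h1.le 5
  have h4 : (148.41 : ℝ) ≤ Real.exp 5 := by
    rw [h2]; refine le_trans ?_ h3; norm_num
  rw [Real.exp_neg, inv_eq_one_div]
  calc 1 / Real.exp 5 ≤ 1 / 148.41 := one_div_le_one_div_of_le (by norm_num) h4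
    _ = 100 / 14841 := by norm_num

theorem pow_bound {m : ℕ} (hm : 2 ≤ m) :
    (1 - 1 / (m : ℝ)) ^ (5 * m) ≤ 100 / 14841 * (2 * m / (2 * m + 5)) := by
  have mR : (2 : ℝ) ≤ m := by exact_mod_cast hm
  have mpos : (0 : ℝ) < m := by linarith
  set x : ℝ := 1 / m with hx
  have x0 : 0 ≤ x := by positivity
  have x1 : x ≤ 1 / 2 := one_div_le_one_div_of_le (by norm_num) mR
  have hmx : (m : ℝ) * x = 1 := by rw [hx]; field_simp
  have h1 := one_sub_mul_exp_le x0 x1
  have h2 : 1 - x ≤ Real.exp (-(x + x ^ 2 / 2)) := by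
    rw [Real.exp_neg, inv_eq_one_div, le_div_iff₀ (Real.exp_pos _)]
    exact h1
  have h3 : (1 - x) ^ (5 * m) ≤ Real.exp (-5) * Real.exp (-(5 / 2 * x)) := by
    calc (1 - x) ^ (5 * m) ≤ Real.exp (-(x + x ^ 2 / 2)) ^ (5 * m) :=
          pow_le_pow_left₀ (by linarith) h2 _
      _ = Real.exp ((5 * m : ℕ) * (-(x + x ^ 2 / 2))) := by rw [← Real.exp_nat_mul]
      _ = Real.exp (-5) * Real.exp (-(5 / 2 * x)) := by
          rw [← Real.exp_add]
          congr 1
          push_cast
          linear_combination (-5 - 5 / 2 * x) * hmx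
  have h4 : Real.exp (-(5 / 2 * x)) ≤ 2 * m / (2 * m + 5) := by
    have h5 : 1 + 5 / 2 * x ≤ Real.exp (5 / 2 * x) := by
      have := Real.add_one_le_exp (5 / 2 * x); linarith
    rw [Real.exp_neg]
    have h6 : (2 * (m : ℝ) / (2 * m + 5)) = (1 + 5 / 2 * x)⁻¹ := by
      rw [hx]; field_simp
    rw [h6]
    exact inv_anti₀ (by positivity) h5
  calc (1 - x) ^ (5 * m) ≤ Real.exp (-5) * Real.exp (-(5 / 2 * x)) := h3
    _ ≤ 100 / 14841 * (2 * m / (2 * m + 5)) := by
        gcongr
        exact exp_neg_five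

theorem Phi_bound {m : ℕ} (hm : 2 ≤ m) :
    Phi m (5 * m) ≤ 100 / 14841 * (m * (53 * m ^ 2 - 41 * m + 8)) /
      (4 * (m - 1) ^ 2 * (2 * m + 5)) := by
  have mR : (2 : ℝ) ≤ m := by exact_mod_cast hm
  have mpos : (0 : ℝ) < m := by linarith
  have m1 : (0 : ℝ) < (m : ℝ) - 1 := by linarith
  have hb := pow_bound hm
  obtain ⟨q, hq⟩ : ∃ q, 5 * m = q + 2 := ⟨5 * m - 2, by omega⟩
  have e1 : Phi m (5 * m) = (1 - 1 / (m : ℝ)) ^ (5 * m)
      * ((53 * (m : ℝ) ^ 2 - 41 * m + 8) / (8 * ((m : ℝ) - 1) ^ 2)) := by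
    have hp : (1 - 1 / (m : ℝ)) ^ (5 * m) = ((m : ℝ) - 1) ^ (5 * m) / (m : ℝ) ^ (5 * m) := by
      rw [← div_pow]; congr 1; field_simp
    rw [hp, Phi]
    have c1 : ((5 * m).choose 1 : ℝ) = 5 * m := by simp
    have c2 : ((5 * m).choose 2 : ℝ) = 5 * m * (5 * m - 1) / 2 := by
      rw [Nat.cast_choose_two]; push_cast; ring
    rw [c1, c2]
    have e2 : ((m : ℝ) - 1) ^ (5 * m) = ((m : ℝ) - 1) ^ q * ((m : ℝ) - 1) ^ 2 := by
      rw [hq, pow_add]
    have e3 : ((m : ℝ) - 1) ^ (5 * m - 1) = ((m : ℝ) - 1) ^ q * ((m : ℝ) - 1) := by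
      rw [hq, show q + 2 - 1 = q + 1 by omega, pow_succ]
    have e4 : ((m : ℝ) - 1) ^ (5 * m - 2) = ((m : ℝ) - 1) ^ q := by
      rw [hq, show q + 2 - 2 = q by omega]
    rw [e2, e3, e4]
    have hmp : (0 : ℝ) < (m : ℝ) ^ (5 * m) := by positivity
    field_simp
    ring
  rw [e1]
  have hnn : 0 ≤ (53 * (m : ℝ) ^ 2 - 41 * m + 8) / (8 * ((m : ℝ) - 1) ^ 2) := by
    apply div_nonneg
    · nlinarith
    · positivity
  calc (1 - 1 / (m : ℝ)) ^ (5 * m) * ((53 * (m : ℝ) ^ 2 - 41 * m + 8) / (8 * ((m : ℝ) - 1) ^ 2))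
      ≤ (100 / 14841 * (2 * m / (2 * m + 5)))
        * ((53 * (m : ℝ) ^ 2 - 41 * m + 8) / (8 * ((m : ℝ) - 1) ^ 2)) := by gcongr
    _ = _ := by field_simp; ring

/-- the polynomial inequality -/
theorem poly_ineq {m t : ℝ} (hm : 7 ≤ m) (h1 : -9 ≤ t) (h2 : t ≤ 9) :
    0 ≤ (6 * m * (4019 / 1000) * (4 * m + t) - (4 * m + t) * (19 * m + t))
        * (4 * (m - 1) ^ 2 * (2 * m + 5))
      - 6 * m * (4019 / 1000) * (19 * m + t) * (100 / 14841 * (m * (53 * m ^ 2 - 41 * m + 8))) := by
  obtain ⟨n, hn⟩ : ∃ n, n = m - 7 := ⟨_, rfl⟩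
  have n0 : 0 ≤ n := by linarith
  have hmn : m = n + 7 := by linarith
  set f : ℝ → ℝ := fun t => (6 * m * (4019 / 1000) * (4 * m + t) - (4 * m + t) * (19 * m + t))
        * (4 * (m - 1) ^ 2 * (2 * m + 5))
      - 6 * m * (4019 / 1000) * (19 * m + t) * (100 / 14841 * (m * (53 * m ^ 2 - 41 * m + 8))) with hf
  have f1 : 0 ≤ f 9 := by
    simp only [hf]
    rw [hmn]
    ring_nf
    positivity
  have f2 : 0 ≤ f (-9) := by
    simp only [hf]
    rw [hmn]
    ring_nf
    positivity
  have f3 : 18 * f t = (9 - t) * f (-9) + (9 + t) * f 9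
      + 18 * (4 * (m - 1) ^ 2 * (2 * m + 5)) * (81 - t ^ 2) := by
    simp only [hf]; ring
  have f4 : 0 ≤ 18 * f t := by
    rw [f3]
    have : 0 ≤ 81 - t ^ 2 := by nlinarith
    have : 0 ≤ 9 - t := by linarith
    have : 0 ≤ 9 + t := by linarith
    have : 0 ≤ 2 * m + 5 := by linarith
    positivity
  show 0 ≤ f t
  linarith

theorem frac_id (M a b P B C : ℝ) (hM : M ≠ 0) (ha : a ≠ 0) (hb : b ≠ 0) (hP : P ≠ 0) :
    C / (b / 3) - (1 / (2 * M) + B / P * (C / (a / 3)))
      = ((6 * M * C * a - a * b) * P - 6 * M * C * b * B) / (2 * M * a * b * P) := by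
  field_simp
  ring

theorem ineq_large {m : ℕ} {t : ℝ} (hm : 7 ≤ m) (h1 : -9 ≤ t) (h2 : t ≤ 9) :
    1 / (2 * (m : ℝ)) + Phi m (5 * m) * ((4019 / 1000) / ((4 * m + t) / 3))
      ≤ (4019 / 1000) / ((19 * m + t) / 3) := by
  have mR : (7 : ℝ) ≤ m := by exact_mod_cast hm
  have mpos : (0 : ℝ) < m := by linarith
  have m1 : (0 : ℝ) < (m : ℝ) - 1 := by linarith
  have p1 : 0 < 4 * (m : ℝ) + t := by linarith
  have p2 : 0 < 19 * (m : ℝ) + t := by linarith
  have hP := Phi_bound (m := m) (by omega)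
  have hpoly := poly_ineq mR h1 h2
  have hPm : 0 < 4 * ((m : ℝ) - 1) ^ 2 * (2 * m + 5) := by positivity
  have step1 : 1 / (2 * (m : ℝ)) + Phi m (5 * m) * ((4019 / 1000) / ((4 * m + t) / 3))
      ≤ 1 / (2 * (m : ℝ)) + (100 / 14841 * (m * (53 * m ^ 2 - 41 * m + 8)) /
      (4 * (m - 1) ^ 2 * (2 * m + 5))) * ((4019 / 1000) / ((4 * m + t) / 3)) := by
    gcongr
  refine step1.trans ?_
  rw [← sub_nonneg]
  have e : (4019 / 1000) / ((19 * (m : ℝ) + t) / 3) -
      (1 / (2 * (m : ℝ)) + (100 / 14841 * (m * (53 * m ^ 2 - 41 * m + 8)) /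
      (4 * (m - 1) ^ 2 * (2 * m + 5))) * ((4019 / 1000) / ((4 * m + t) / 3)))
      = ((6 * m * (4019 / 1000) * (4 * m + t) - (4 * m + t) * (19 * m + t))
        * (4 * (m - 1) ^ 2 * (2 * m + 5))
      - 6 * m * (4019 / 1000) * (19 * m + t) * (100 / 14841 * (m * (53 * m ^ 2 - 41 * m + 8))))
        / (2 * m * (4 * m + t) * (19 * m + t) * (4 * (m - 1) ^ 2 * (2 * m + 5))) := by
    rw [frac_id (m : ℝ) (4 * m + t) (19 * m + t) (4 * (m - 1) ^ 2 * (2 * m + 5)) _ (4019 / 1000)
      mpos.ne' p1.ne' p2.ne' hPm.ne']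
  rw [e]
  positivity

theorem small {k m : ℕ} (hk : 1 ≤ k) (hm : 1 ≤ m)
    (hle : 1 / (2 * (m : ℝ)) + Phi m k ≤ (4019 / 1000) / ((k : ℝ) + 1)) :
    Sys 1 0 k ((4019 / 1000) / ((k : ℝ) + 1)) := by
  have := step_F2 (h := 0) (e := k - 1) m hm zero_le_one (Sys.triv 1 0 0 le_rfl)
  rw [show 0 + (k - 1) + 1 = k by omega, show k - 1 + 1 = k by omega, mul_one] at this
  exact this.mono hle

theorem main (k : ℕ) : Sys 1 0 k ((4019 / 1000) / ((k : ℝ) + 1)) := by
  induction k using Nat.strong_induction_on with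
  | _ k ih =>
    rcases Nat.lt_or_ge k 4 with hk | hk
    · refine (Sys.triv 1 0 k (Nat.zero_le _)).mono ?_
      rw [le_div_iff₀ (by positivity)]
      have : (k : ℝ) ≤ 3 := by exact_mod_cast Nat.lt_succ_iff.mp hk
      linarith
    · rcases Nat.lt_or_ge k 41 with hk2 | hk2
      · clear ih
        interval_cases k
        · exact small (m := 1) (by norm_num) (by norm_num) (by norm_num [Phi, Nat.choose])
        · exact small (m := 1) (by norm_num) (by norm_num) (by norm_num [Phi, Nat.choose])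
        · exact small (m := 1) (by norm_num) (by norm_num) (by norm_num [Phi, Nat.choose])
        · exact small (m := 1) (by norm_num) (by norm_num) (by norm_num [Phi, Nat.choose])
        · exact small (m := 2) (by norm_num) (by norm_num) (by norm_num [Phi, Nat.choose])
        · exact small (m := 2) (by norm_num) (by norm_num) (by norm_num [Phi, Nat.choose])
        · exact small (m := 2) (by norm_num) (by norm_num) (by norm_num [Phi, Nat.choose])
        · exact small (m := 2) (by norm_num) (by norm_num) (by norm_num [Phi, Nat.choose])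
        · exact small (m := 2) (by norm_num) (by norm_num) (by norm_num [Phi, Nat.choose])
        · exact small (m := 2) (by norm_num) (by norm_num) (by norm_num [Phi, Nat.choose])
        · exact small (m := 2) (by norm_num) (by norm_num) (by norm_num [Phi, Nat.choose])
        · exact small (m := 2) (by norm_num) (by norm_num) (by norm_num [Phi, Nat.choose])
        · exact small (m := 3) (by norm_num) (by norm_num) (by norm_num [Phi, Nat.choose])
        · exact small (m := 3) (by norm_num) (by norm_num) (by norm_num [Phi, Nat.choose])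
        · exact small (m := 3) (by norm_num) (by norm_num) (by norm_num [Phi, Nat.choose])
        · exact small (m := 3) (by norm_num) (by norm_num) (by norm_num [Phi, Nat.choose])
        · exact small (m := 3) (by norm_num) (by norm_num) (by norm_num [Phi, Nat.choose])
        · exact small (m := 3) (by norm_num) (by norm_num) (by norm_num [Phi, Nat.choose])
        · exact small (m := 3) (by norm_num) (by norm_num) (by norm_num [Phi, Nat.choose])
        · exact small (m := 4) (by norm_num) (by norm_num) (by norm_num [Phi, Nat.choose])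
        · exact small (m := 4) (by norm_num) (by norm_num) (by norm_num [Phi, Nat.choose])
        · exact small (m := 4) (by norm_num) (by norm_num) (by norm_num [Phi, Nat.choose])
        · exact small (m := 4) (by norm_num) (by norm_num) (by norm_num [Phi, Nat.choose])
        · exact small (m := 4) (by norm_num) (by norm_num) (by norm_num [Phi, Nat.choose])
        · exact small (m := 4) (by norm_num) (by norm_num) (by norm_num [Phi, Nat.choose])
        · exact small (m := 4) (by norm_num) (by norm_num) (by norm_num [Phi, Nat.choose])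
        · exact small (m := 4) (by norm_num) (by norm_num) (by norm_num [Phi, Nat.choose])
        · exact small (m := 5) (by norm_num) (by norm_num) (by norm_num [Phi, Nat.choose])
        · exact small (m := 5) (by norm_num) (by norm_num) (by norm_num [Phi, Nat.choose])
        · exact small (m := 5) (by norm_num) (by norm_num) (by norm_num [Phi, Nat.choose])
        · exact small (m := 5) (by norm_num) (by norm_num) (by norm_num [Phi, Nat.choose])
        · exact small (m := 5) (by norm_num) (by norm_num) (by norm_num [Phi, Nat.choose])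
        · exact small (m := 5) (by norm_num) (by norm_num) (by norm_num [Phi, Nat.choose])
        · exact small (m := 5) (by norm_num) (by norm_num) (by norm_num [Phi, Nat.choose])
        · exact small (m := 6) (by norm_num) (by norm_num) (by norm_num [Phi, Nat.choose])
        · exact small (m := 6) (by norm_num) (by norm_num) (by norm_num [Phi, Nat.choose])
        · exact small (m := 6) (by norm_num) (by norm_num) (by norm_num [Phi, Nat.choose])
      · obtain ⟨m, hm⟩ : ∃ m, m = (3 * (k + 1) + 9) / 19 := ⟨_, rfl⟩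
        have hm7 : 7 ≤ m := by omega
        have hlow : 19 * m ≤ 3 * (k + 1) + 9 := by omega
        have hup : 3 * (k + 1) ≤ 19 * m + 9 := by omega
        obtain ⟨h, hh⟩ : ∃ h, h = k - 5 * m := ⟨_, rfl⟩
        have hkh : k = h + 5 * m := by omega
        have s1 := step_F2 (h := h) (e := 5 * m - 1) m (by omega) (by positivity)
          (ih h (by omega))
        rw [show h + (5 * m - 1) + 1 = k by omega, show 5 * m - 1 + 1 = 5 * m by omega] at s1
        refine s1.mono ?_
        have hlowR : 19 * (m : ℝ) ≤ 3 * (k + 1) + 9 := by exact_mod_cast hlow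
        have hupR : 3 * ((k : ℝ) + 1) ≤ 19 * m + 9 := by exact_mod_cast hup
        have hkR : (k : ℝ) = h + 5 * m := by exact_mod_cast hkh
        have := ineq_large (m := m) (t := 3 * ((k : ℝ) + 1) - 19 * m) hm7 (by linarith) (by linarith)
        have e1 : (4 * (m : ℝ) + (3 * ((k : ℝ) + 1) - 19 * m)) / 3 = h + 1 := by
          rw [hkR]; ring
        have e2 : (19 * (m : ℝ) + (3 * ((k : ℝ) + 1) - 19 * m)) / 3 = k + 1 := by ring
        rw [e1, e2] at this
        exact this

end Pool.Agent.H120R2.TuranF2
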