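import Pool.Agent.H120R2.TuranCount

/-!
# The recursion step
-/

open Finset

namespace Pool.Agent.H120R2.TuranF2

open Pool.Agent.Results.MP_7badbe_co.FixedI

open Classical in
/-- A random family of `e`-sets of expected relative size at most `x` such that every
`(e+1)`-set contains no member with probability at most `y`, combined with a system of `h`-sets. -/
theorem step_general {h e : ℕ} {δ x y : ℝ} (h0 : 0 ≤ δ) (hx : 0 ≤ x) (hy0 : 0 ≤ y)
    (hA : Sys 1 0 h δ)
    (H : ∀ W : Finset ℕ, ∃ (P : Type) (_ : Fintype P) (_ : Nonempty P)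
      (Good Bad : P → Finset ℕ → Prop),
      (∀ p : P, ∀ D ⊆ W, D.card = e + 1 → ¬ Bad p D → ∃ v ∈ D, Good p (D.erase v)) ∧
      (∀ C ⊆ W, C.card = e → ∑ p : P, (if Good p C then (1 : ℝ) else 0) ≤ x * Fintype.card P) ∧
      (∀ D ⊆ W, D.card = e + 1 →
        ∑ p : P, (if Bad p D then (1 : ℝ) else 0) ≤ y * Fintype.card P)) :
    Sys 1 0 (h + e + 1) (x + y * δ) := by
  intro W
  obtain ⟨P, iP, nP, Good, Bad, H1, H2, H3⟩ := H W
  choose 𝒜 a1 a2 a3 using fun y => hA (lo W y)
  set n := W.card with hn
  set k := h + e + 1 with hk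
  let G1 : P → Finset (Finset ℕ) := fun p => W.biUnion (fun y =>
    (((lo W y).powersetCard h) ×ˢ (((hi W y).powersetCard e).filter
      (fun C => Good p C))).image (fun t => join y t.1 t.2))
  let G2 : P → Finset (Finset ℕ) := fun p => W.biUnion (fun y =>
    ((𝒜 y) ×ˢ (((hi W y).powersetCard e).filter
      (fun C => Bad p (insert y C)))).image (fun t => join y t.1 t.2))
  have cP : (0 : ℝ) < Fintype.card P := by exact_mod_cast Fintype.card_pos
  have b1 : ∑ p : P, ((G1 p).card : ℝ) ≤ (Fintype.card P : ℝ) * x * (n.choose k : ℝ) := by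
    have t1 : ∀ p : P, ((G1 p).card : ℝ) ≤ ∑ y ∈ W, ∑ C ∈ (hi W y).powersetCard e,
        ((lo W y).card.choose h : ℝ) * (if Good p C then 1 else 0) := by
      intro p
      have u1 : (G1 p).card ≤ ∑ y ∈ W, (lo W y).card.choose h *
          (((hi W y).powersetCard e).filter (fun C => Good p C)).card := by
        refine Finset.card_biUnion_le.trans (Finset.sum_le_sum fun y _ => ?_)
        refine Finset.card_image_le.trans ?_
        rw [Finset.card_product, Finset.card_powersetCard]
      have u2 : ((G1 p).card : ℝ) ≤ ∑ y ∈ W, ((lo W y).card.choose h : ℝ) *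
          ((((hi W y).powersetCard e).filter (fun C => Good p C)).card : ℝ) := by
        exact_mod_cast u1
      refine u2.trans (Finset.sum_le_sum fun y _ => ?_)
      rw [Finset.card_filter]
      push_cast
      rw [Finset.mul_sum]
    calc ∑ p : P, ((G1 p).card : ℝ)
        ≤ ∑ p : P, ∑ y ∈ W, ∑ C ∈ (hi W y).powersetCard e,
          ((lo W y).card.choose h : ℝ) * (if Good p C then 1 else 0) :=
          Finset.sum_le_sum fun p _ => t1 p
      _ = ∑ y ∈ W, ∑ C ∈ (hi W y).powersetCard e, ((lo W y).card.choose h : ℝ) *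
          ∑ p : P, (if Good p C then (1 : ℝ) else 0) := by
          rw [Finset.sum_comm]
          refine Finset.sum_congr rfl fun y _ => ?_
          rw [Finset.sum_comm]
          refine Finset.sum_congr rfl fun C _ => ?_
          rw [Finset.mul_sum]
      _ ≤ ∑ y ∈ W, ∑ C ∈ (hi W y).powersetCard e, ((lo W y).card.choose h : ℝ) *
          (x * Fintype.card P) := by
          refine Finset.sum_le_sum fun y hy => Finset.sum_le_sum fun C hC => ?_
          rw [mem_powersetCard] at hC
          gcongr
          exact H2 C (hC.1.trans (Finset.filter_subset _ _)) hC.2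
      _ = (Fintype.card P * x) *
          ((∑ y ∈ W, (lo W y).card.choose h * (hi W y).card.choose e : ℕ) : ℝ) := by
          push_cast
          rw [Finset.mul_sum]
          refine Finset.sum_congr rfl fun y _ => ?_
          rw [Finset.sum_const, Finset.card_powersetCard, nsmul_eq_mul]
          ring
      _ ≤ (Fintype.card P * x) * (n.choose k : ℝ) := by
          gcongr
          exact_mod_cast tri_count W h e
  have b2 : ∑ p : P, ((G2 p).card : ℝ) ≤ (Fintype.card P : ℝ) * (y * δ) * (n.choose k : ℝ) := by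
    have t1 : ∀ p : P, ((G2 p).card : ℝ) ≤ ∑ z ∈ W, ∑ C ∈ (hi W z).powersetCard e,
        (δ * ((lo W z).card.choose h : ℝ)) * (if Bad p (insert z C) then 1 else 0) := by
      intro p
      have u1 : (G2 p).card ≤ ∑ z ∈ W, (𝒜 z).card *
        (((hi W z).powersetCard e).filter (fun C => Bad p (insert z C))).card := by
        refine Finset.card_biUnion_le.trans (Finset.sum_le_sum fun z _ => ?_)
        refine Finset.card_image_le.trans ?_
        rw [Finset.card_product]
      have u2 : ((G2 p).card : ℝ) ≤ ∑ z ∈ W, ((𝒜 z).card : ℝ) *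
        ((((hi W z).powersetCard e).filter (fun C => Bad p (insert z C))).card : ℝ) := by
        exact_mod_cast u1
      refine u2.trans (Finset.sum_le_sum fun z _ => ?_)
      rw [Finset.card_filter]
      push_cast
      rw [Finset.mul_sum]
      refine Finset.sum_le_sum fun C _ => ?_
      gcongr
      exact a3 z
    have t3 : ∀ z ∈ W, ∀ C ∈ (hi W z).powersetCard e,
        ∑ p : P, (if Bad p (insert z C) then (1 : ℝ) else 0) ≤ y * Fintype.card P := by
      intro z hz C hC
      rw [mem_powersetCard] at hC
      have hyC : z ∉ C := fun hh => lt_irrefl _ (mem_hi.mp (hC.1 hh)).2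
      have hsub : insert z C ⊆ W := by
        intro a ha
        rw [mem_insert] at ha
        rcases ha with rfl | ha
        · exact hz
        · exact (mem_hi.mp (hC.1 ha)).1
      exact H3 _ hsub (by rw [Finset.card_insert_of_notMem hyC, hC.2])
    calc ∑ p : P, ((G2 p).card : ℝ)
        ≤ ∑ p : P, ∑ z ∈ W, ∑ C ∈ (hi W z).powersetCard e,
          (δ * ((lo W z).card.choose h : ℝ)) * (if Bad p (insert z C) then 1 else 0) :=
          Finset.sum_le_sum fun p _ => t1 p
      _ = ∑ z ∈ W, ∑ C ∈ (hi W z).powersetCard e, (δ * ((lo W z).card.choose h : ℝ)) *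
          ∑ p : P, (if Bad p (insert z C) then (1 : ℝ) else 0) := by
          rw [Finset.sum_comm]
          refine Finset.sum_congr rfl fun z _ => ?_
          rw [Finset.sum_comm]
          refine Finset.sum_congr rfl fun C _ => ?_
          rw [Finset.mul_sum]
      _ ≤ ∑ z ∈ W, ∑ C ∈ (hi W z).powersetCard e, (δ * ((lo W z).card.choose h : ℝ)) *
          (y * Fintype.card P) := by
          refine Finset.sum_le_sum fun z hz => Finset.sum_le_sum fun C hC => ?_
          have := t3 z hz C hC
          gcongr
      _ = (Fintype.card P * (y * δ)) *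
          ((∑ z ∈ W, (lo W z).card.choose h * (hi W z).card.choose e : ℕ) : ℝ) := by
          push_cast
          rw [Finset.mul_sum]
          refine Finset.sum_congr rfl fun z _ => ?_
          rw [Finset.sum_const, Finset.card_powersetCard, nsmul_eq_mul]
          ring
      _ ≤ (Fintype.card P * (y * δ)) * (n.choose k : ℝ) := by
          gcongr
          exact_mod_cast tri_count W h e
  -- averaging
  obtain ⟨p, -, hp⟩ := Finset.exists_le_of_sum_le (s := (univ : Finset P))
    (f := fun p => ((G1 p).card : ℝ) + ((G2 p).card : ℝ))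
    (g := fun _ => (x + y * δ) * (n.choose k : ℝ)) univ_nonempty (by
      rw [Finset.sum_add_distrib, Finset.sum_const, card_univ, nsmul_eq_mul]
      calc _ ≤ (Fintype.card P : ℝ) * x * (n.choose k : ℝ)
              + (Fintype.card P : ℝ) * (y * δ) * (n.choose k : ℝ) := add_le_add b1 b2
        _ = _ := by ring)
  refine ⟨G1 p ∪ G2 p, ?_, ?_, ?_⟩
  · intro A hA'
    rcases mem_union.mp hA' with h' | h'
    · exact glue_mem (fun y _ B hB => mem_powersetCard.mp hB)
        (fun y _ C hC => mem_powersetCard.mp (mem_filter.mp hC).1) A h'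
    · exact glue_mem (fun y _ => a1 y)
        (fun y _ C hC => mem_powersetCard.mp (mem_filter.mp hC).1) A h'
  · intro X hX hXc S hS hSc
    have hS0 : S = ∅ := by simpa using hSc
    subst hS0
    obtain ⟨y', hy', hyc⟩ := exists_rank X (h + 1) (by omega)
    obtain ⟨z, hz, hzc⟩ := exists_rank X h (by omega)
    have hspy := card_split hy'
    have hspz := card_split hz
    -- the top part
    have hD : hi X z = insert y' (hi X y') := by
      have hzy : z < y' := by
        by_contra hcon
        have : lo X y' ⊆ lo X z := by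
          intro a ha; rw [mem_lo] at *; exact ⟨ha.1, by omega⟩
        have := Finset.card_le_card this
        omega
      symm
      apply Finset.eq_of_subset_of_card_le
      · intro a ha
        rw [mem_insert] at ha
        rw [mem_hi]
        rcases ha with rfl | ha
        · exact ⟨hy', hzy⟩
        · rw [mem_hi] at ha; exact ⟨ha.1, by omega⟩
      · rw [Finset.card_insert_of_notMem (by simp [mem_hi])]; omega
    by_cases hcase : Bad p (insert y' (hi X y'))
    · obtain ⟨B, hB1, hB2, hB3⟩ := a2 y' (lo X y') (lo_mono hX y') (by omega) ∅ (by simp) (by simp)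
      refine ⟨join y' B (hi X y'), mem_union_right _ ?_, by simp, ?_⟩
      · refine mem_glue (hX hy') hB1 ?_
        rw [mem_filter]
        exact ⟨mem_powersetCard.mpr ⟨hi_mono hX y', by omega⟩, hcase⟩
      · exact join_subset hy' (hB3.trans (Finset.filter_subset _ _)) (Finset.filter_subset _ _)
    · rw [← hD] at hcase
      have hcd : (hi X z).card = e + 1 := by omega
      obtain ⟨v, hv, hve⟩ := H1 p (hi X z)
        ((Finset.filter_subset _ _).trans hX) hcd hcase
      refine ⟨join z (lo X z) ((hi X z).erase v), mem_union_left _ ?_, by simp, ?_⟩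
      · refine mem_glue (hX hz) (mem_powersetCard.mpr ⟨lo_mono hX z, hzc⟩) ?_
        rw [mem_filter]
        refine ⟨mem_powersetCard.mpr ⟨(Finset.erase_subset _ _).trans (hi_mono hX z), ?_⟩, hve⟩
        rw [Finset.card_erase_of_mem hv]; omega
      · exact join_subset hz (Finset.filter_subset _ _)
          ((Finset.erase_subset _ _).trans (Finset.filter_subset _ _))
  · have : ((G1 p ∪ G2 p).card : ℝ) ≤ (G1 p).card + (G2 p).card := by
      exact_mod_cast Finset.card_union_le _ _
    exact this.trans hp

/-- The recursion step: class sums together with the multilinear parity function. -/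
theorem step_F2 {h e : ℕ} {δ : ℝ} (m : ℕ) (hm : 1 ≤ m) (h0 : 0 ≤ δ) (hA : Sys 1 0 h δ) :
    Sys 1 0 (h + e + 1) (1 / (2 * m) + Phi m (e + 1) * δ) := by
  classical
  have mpos : (0 : ℝ) < m := by exact_mod_cast hm
  refine step_general h0 (by positivity) (Phi_nonneg hm) hA fun W => ?_
  have : NeZero m := ⟨by omega⟩
  have hcP : (Fintype.card (((W → ZMod m) × ZMod m) × (W.powerset → ZMod 2)) : ℝ)
      = (m : ℝ) ^ W.card * m * (Fintype.card (W.powerset → ZMod 2) : ℝ) := by
    rw [Fintype.card_prod, Fintype.card_prod]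
    push_cast
    congr 2
    · simp [ZMod.card]
    · simp [ZMod.card]
  have hM : (0 : ℝ) < (Fintype.card (W.powerset → ZMod 2) : ℝ) := by
    exact_mod_cast Fintype.card_pos
  refine ⟨((W → ZMod m) × ZMod m) × (W.powerset → ZMod 2), inferInstance, inferInstance,
    fun p C => ∑ v ∈ C, ex0 p.1.1 v = p.1.2 ∧ FF (ex0 p.1.1) (exM p.2) C = 0,
    fun p D => ∀ v ∈ D, ex0 p.1.1 v = (∑ u ∈ D, ex0 p.1.1 u) - p.1.2 →
      FF (ex0 p.1.1) (exM p.2) (D.erase v) ≠ 0, ?_, ?_, ?_⟩
  · rintro ⟨⟨l, s⟩, M⟩ D hD hDc hbad
    simp only at hbad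
    push Not at hbad
    obtain ⟨v, hv, h1, h2⟩ := hbad
    refine ⟨v, hv, ?_, h2⟩
    have := Finset.sum_erase_add D (fun v => ex0 l v) hv
    simp only at this ⊢
    rw [h1] at this
    linear_combination this
  · intro C hC hCc
    rw [hcP, Fintype.sum_prod_type]
    simp only
    have e1 : ∀ q : (W → ZMod m) × ZMod m, ∑ M : W.powerset → ZMod 2,
        (if ∑ v ∈ C, ex0 q.1 v = q.2 ∧ FF (ex0 q.1) (exM M) C = 0 then (1 : ℝ) else 0)
        = (if ∑ v ∈ C, ex0 q.1 v = q.2 then (1 : ℝ) else 0)
          * ((Fintype.card (W.powerset → ZMod 2) : ℝ) / 2) := by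
      intro q
      by_cases hq : ∑ v ∈ C, ex0 q.1 v = q.2
      · simp only [hq, true_and, if_true, one_mul]
        rw [Finset.sum_boole]
        have hc := half_count (W := W) (A := Tr (ex0 q.1) C) (by
          intro T hT
          rw [mem_powerset]
          exact (Tr_subset hT).trans hC) (Tr_nonempty _ _) 0
        have hc' : ((univ.filter (fun M : W.powerset → ZMod 2 =>
          ∑ T ∈ Tr (ex0 q.1) C, exM M T = 0)).card : ℝ) * 2
          = (Fintype.card (W.powerset → ZMod 2) : ℝ) := by exact_mod_cast hc
        have hset : (univ.filter (fun M : W.powerset → ZMod 2 =>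
            FF (ex0 q.1) (exM M) C = 0)) = (univ.filter (fun M : W.powerset → ZMod 2 =>
            ∑ T ∈ Tr (ex0 q.1) C, exM M T = 0)) := by
          ext M
          exact ⟨fun h => mem_filter.mpr ⟨mem_univ _, (mem_filter.mp h).2⟩,
            fun h => mem_filter.mpr ⟨mem_univ _, (mem_filter.mp h).2⟩⟩
        rw [← hc', hset]
        ring
      · simp [hq]
    simp_rw [e1]
    rw [← Finset.sum_mul, Fintype.sum_prod_type]
    have e2 : ∀ l : W → ZMod m, ∑ s : ZMod m,
        (if ∑ v ∈ C, ex0 l v = s then (1 : ℝ) else 0) = 1 := by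
      intro l
      simp
    simp_rw [e2]
    rw [Finset.sum_const, card_univ, nsmul_eq_mul, mul_one]
    have e3 : (Fintype.card (W → ZMod m) : ℝ) = (m : ℝ) ^ W.card := by
      simp [ZMod.card]
    rw [e3]
    apply le_of_eq
    field_simp
  · intro D hD hDc
    rw [hcP, Fintype.sum_prod_type]
    simp only
    have e1 : ∀ q : (W → ZMod m) × ZMod m, ∑ M : W.powerset → ZMod 2,
        (if ∀ v ∈ D, ex0 q.1 v = (∑ u ∈ D, ex0 q.1 u) - q.2 →
          FF (ex0 q.1) (exM M) (D.erase v) ≠ 0 then (1 : ℝ) else 0)
        ≤ wt (D.filter (fun v => ex0 q.1 v = (∑ u ∈ D, ex0 q.1 u) - q.2)).card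
          * (Fintype.card (W.powerset → ZMod 2) : ℝ) := by
      intro q
      rw [Finset.sum_boole]
      exact fail_count hD (ex0 q.1) ((∑ u ∈ D, ex0 q.1 u) - q.2)
    refine (Finset.sum_le_sum fun q _ => e1 q).trans ?_
    rw [← Finset.sum_mul, Fintype.sum_prod_type]
    have e2 : ∑ l : W → ZMod m, ∑ s : ZMod m,
        wt (D.filter (fun v => ex0 l v = (∑ u ∈ D, ex0 l u) - s)).card
        = ∑ c : ZMod m, ∑ l : W → ZMod m, wt (D.filter (fun v => ex0 l v = c)).card := by
      rw [Finset.sum_comm (s := (univ : Finset (ZMod m)))]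
      refine Finset.sum_congr rfl fun l _ => ?_
      exact (Equiv.subLeft (∑ u ∈ D, ex0 l u)).sum_comp
        (fun c => wt (D.filter (fun v => ex0 l v = c)).card)
    rw [e2]
    simp_rw [weight_sum m hm D hD]
    rw [Finset.sum_const, card_univ, ZMod.card, nsmul_eq_mul, hDc]
    apply le_of_eq
    ring

end Pool.Agent.H120R2.TuranF2
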